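import Pool.Agent.H419.MK.Fin
import Pool.Agent.H419.MK.Sum2
import Pool.Agent.H419.MK.HITZ
import Pool.Agent.H419.MK.SPC
import Pool.Agent.H419.MK.RGP
import Pool.Agent.H419.MK.FAM
import Pool.Agent.H419.MK.SPL
import Pool.Agent.H419.MK.IDL
import Pool.Agent.H419.MK.QMX
import Pool.Agent.H419.MK.APR
import Pool.Agent.H419.MK.ISO
import Pool.Agent.H419.MK.MAINQ

/-!
# Malle's conjecture for `C₂ ≀ H` over sufficiently large number fields, with local conditions

`H` is a finite group with at least two elements which has a solvable normal subgroup `S` such that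
`H / S` is trivial or has a faithful transitive action on `u` points, `4 u ^ 2 < 3 |H / S|`; for
example any nontrivial solvable group and any symmetric group `S_m`, `m ≥ 2`. The group `H` acts on
itself by multiplication, and `G = C₂ ≀ H` acts on `H × {0, 1}`. There is a number field `K₀` such that for all number fields
`K ⊇ K₀` the number `n_K(G, B)` of `G`-extensions of `K` with discriminant of norm at most `B` is
`∼ C B ^ (1 / ind G) (log B) ^ (β_K(G) - 1) = C B`. The same field `K₀` has the following property. For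
all number fields `K ⊇ K₀`, all nonzero ideals `𝔪` of `𝓞_K` and all `𝓞_K`-algebras `R` the proportion
of those `L` with `𝓞_L / 𝔪 𝓞_L ≅ R` converges; it is positive if one `G`-extension `L` has this
property, and it is positive for all `R = ∏ 𝓞_K[X] / (𝔪, X² + a_h X + b_h)` (`h ∈ H`), where the
orders `𝓞_K[X] / (X² + a_h X + b_h)` are maximal at the primes dividing `𝔪`.
-/

set_option autoImplicit false

open Filter NumberField Polynomial

namespace Pool.Agent.Results.MP_b39724_nt.LocalConditions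

/-- `G ≤ S_d` is, up to a bijection `f` of `{1, ..., d}` with `H × {0, 1}`, the wreath product
`C₂ ≀ H`: it consists of all permutations `π` for which there is `h ∈ H` such that `π` maps the block
`{x} × {0, 1}` to the block `{h x} × {0, 1}`, for all `x ∈ H`. -/
def IsC2Wreath (H : Type) [Group H] {d : ℕ} (G : Subgroup (Equiv.Perm (Fin d))) : Prop :=
  ∃ f : Fin d ≃ H × Bool, ∀ π : Equiv.Perm (Fin d), π ∈ G ↔ ∃ h : H, ∀ i, (f (π i)).1 = h * (f i).1

/-- `H` has a solvable normal subgroup `S` such that `H / S` is trivial or has a faithful transitive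
action on `u` points (the cosets of `U`) with `4 u ^ 2 < 3 |H / S|`. -/
def IsAdmissible (H : Type) [Group H] : Prop :=
  ∃ (S : Subgroup H) (_ : S.Normal), Group.IsSolvable S ∧
    (S = ⊤ ∨ ∃ U : Subgroup (H ⧸ S), U.normalCore = ⊥ ∧
      4 * U.index ^ 2 < 3 * Nat.card (H ⧸ S))

/-- The fields `L` between `K` and its algebraic closure, of degree `d` over `K`, whose Galois group,
acting on the embeddings, is `G` (up to numbering), and whose relative discriminant has norm at most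
`B` (that is, `|d_L| ≤ B |d_K| ^ d`). -/
def Ext (K : Type) [Field K] [NumberField K] (d : ℕ) (G : Subgroup (Equiv.Perm (Fin d)))
    (B : ℝ) : Set (IntermediateField K (AlgebraicClosure K)) :=
  {L | Module.finrank K L = d ∧
    (∃ e : (L →ₐ[K] AlgebraicClosure K) ≃ Fin d, ∀ π : Equiv.Perm (Fin d),
      π ∈ G ↔ ∃ σ : AlgebraicClosure K ≃ₐ[K] AlgebraicClosure K,
        ∀ φ : L →ₐ[K] AlgebraicClosure K, e (σ.toAlgHom.comp φ) = π (e φ)) ∧
    ∃ h : NumberField L,
      ((|@NumberField.discr L _ h| : ℤ) : ℝ) ≤ B * ((|NumberField.discr K| : ℤ) : ℝ) ^ d}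

/-- The `𝓞_K`-algebra `𝓞_L / 𝔪 𝓞_L`. -/
abbrev Loc (K : Type) [Field K] (L : Type) [Field L] [Algebra K L] (𝔪 : Ideal (𝓞 K)) : Type :=
  𝓞 L ⧸ 𝔪.map (algebraMap (𝓞 K) (𝓞 L))

/-- `𝓞_L / 𝔪 𝓞_L ≅ R` as algebras over `𝓞_K`. -/
def HasLoc (K : Type) [Field K] (L : Type) [Field L] [Algebra K L] (𝔪 : Ideal (𝓞 K))
    (R : Type) [CommRing R] [Algebra (𝓞 K) R] : Prop :=
  Nonempty (Loc K L 𝔪 ≃ₐ[𝓞 K] R)

/-- `n_K(G, B)`: the number of the fields in `Ext K d G B` up to `K`-isomorphism. -/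
noncomputable def N (K : Type) [Field K] [NumberField K] (d : ℕ)
    (G : Subgroup (Equiv.Perm (Fin d))) (B : ℝ) : ℕ :=
  Nat.card (Quot fun L L' : Ext K d G B => Nonempty (L.1 ≃ₐ[K] L'.1))

/-- `n_K(G, B; R)`: the number of those with `𝓞_L / 𝔪 𝓞_L ≅ R`. -/
noncomputable def NLoc (K : Type) [Field K] [NumberField K] (d : ℕ)
    (G : Subgroup (Equiv.Perm (Fin d))) (𝔪 : Ideal (𝓞 K)) (R : Type) [CommRing R]
    [Algebra (𝓞 K) R] (B : ℝ) : ℕ :=
  Nat.card (Quot fun L L' : {L : IntermediateField K (AlgebraicClosure K) |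
    L ∈ Ext K d G B ∧ HasLoc K L 𝔪 R} => Nonempty (L.1 ≃ₐ[K] L'.1))

/-- The index of a permutation: the degree minus the number of cycles (fixed points included). -/
def ind {d : ℕ} (g : Equiv.Perm (Fin d)) : ℕ := d - Multiset.card g.partition.parts

/-- `ind(G)`: the least index of a nontrivial element of `G`. -/
noncomputable def minInd {d : ℕ} (G : Subgroup (Equiv.Perm (Fin d))) : ℕ :=
  sInf {k : ℕ | ∃ g ∈ G, g ≠ 1 ∧ k = ind g}

/-- `g` and `h` are `K`-conjugate in `G`: `h` is conjugate in `G` to `g ^ a`, where some `K`-automorphism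
of the algebraic closure acts on the roots of unity of order dividing `|G|` by `ζ ↦ ζ ^ a`. -/
def KConj (K : Type) [Field K] {d : ℕ} (G : Subgroup (Equiv.Perm (Fin d)))
    (g h : Equiv.Perm (Fin d)) : Prop :=
  ∃ (σ : AlgebraicClosure K ≃ₐ[K] AlgebraicClosure K) (a : ℕ),
    (∀ ζ : AlgebraicClosure K, ζ ^ Nat.card G = 1 → σ ζ = ζ ^ a) ∧
    ∃ x ∈ G, h = x * g ^ a * x⁻¹

/-- `β_K(G)`: the number of `K`-conjugacy classes of elements of `G` of least index. -/
noncomputable def β (K : Type) [Field K] {d : ℕ} (G : Subgroup (Equiv.Perm (Fin d))) : ℕ :=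
  Nat.card (Quot fun g h : {g : Equiv.Perm (Fin d) // g ∈ G ∧ g ≠ 1 ∧ ind g = minInd G} =>
    KConj K G g.1 h.1)

/-- The order `A[X] / (X² + a X + b)` is maximal at the prime ideal `P` (criterion of Dedekind). -/
def MaximalAt {A : Type} [CommRing A] (P : Ideal A) (a b : A) : Prop :=
  ∀ c : A, ¬ (c ^ 2 + a * c + b ∈ P ^ 2 ∧ 2 * c + a ∈ P)

/-- The `𝓞_K`-algebra `𝓞_K[X] / (𝔪, X² + a X + b)`. -/
abbrev QuadAlg (K : Type) [Field K] (𝔪 : Ideal (𝓞 K)) (a b : 𝓞 K) : Type :=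
  (𝓞 K)[X] ⧸ (Ideal.span {X ^ 2 + C a * X + C b} ⊔ 𝔪.map C)

/-- Malle's formula for `K` and `G`: `n_K(G, B) ∼ C B ^ (1 / ind G) (log B) ^ (β_K(G) - 1)`. -/
def MalleFormula (K : Type) [Field K] [NumberField K] (d : ℕ)
    (G : Subgroup (Equiv.Perm (Fin d))) : Prop :=
  ∃ C : ℝ, 0 < C ∧ Tendsto (fun B : ℝ => (N K d G B : ℝ) /
    (B ^ (1 / (minInd G : ℝ)) * Real.log B ^ (β K G - 1))) atTop (nhds C)

/-- The proportion of those `G`-extensions `L` of `K` with `𝓞_L / 𝔪 𝓞_L ≅ R` is `δ`. -/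
def HasProportion (K : Type) [Field K] [NumberField K] (d : ℕ)
    (G : Subgroup (Equiv.Perm (Fin d))) (𝔪 : Ideal (𝓞 K)) (R : Type) [CommRing R]
    [Algebra (𝓞 K) R] (δ : ℝ) : Prop :=
  Tendsto (fun B : ℝ => (NLoc K d G 𝔪 R B : ℝ) / N K d G B) atTop (nhds δ)

/-- For all `𝓞_K`-algebras `R` the proportion of those `L` with `𝓞_L / 𝔪 𝓞_L ≅ R` exists, and it is
positive if and only if one such `L` exists. -/
def LocalLaw (K : Type) [Field K] [NumberField K] (d : ℕ)
    (G : Subgroup (Equiv.Perm (Fin d))) (𝔪 : Ideal (𝓞 K)) : Prop :=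
  ∀ (R : Type) [CommRing R] [Algebra (𝓞 K) R], ∃ δ : ℝ, 0 ≤ δ ∧ HasProportion K d G 𝔪 R δ ∧
    (0 < δ ↔ ∃ B : ℝ, ∃ L ∈ Ext K d G B, HasLoc K L 𝔪 R)

/-- All products `∏_{h ∈ H} 𝓞_K[X] / (𝔪, X² + a_h X + b_h)`, with polynomials which define maximal
orders at the primes dividing `𝔪`, have a positive proportion. -/
def AllQuadratic (K : Type) [Field K] [NumberField K] (H : Type) (d : ℕ)
    (G : Subgroup (Equiv.Perm (Fin d))) (𝔪 : Ideal (𝓞 K)) : Prop :=
  ∀ a b : H → 𝓞 K, (∀ h, ∀ P : Ideal (𝓞 K), P.IsPrime → 𝔪 ≤ P → MaximalAt P (a h) (b h)) →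
    ∃ δ : ℝ, 0 < δ ∧ HasProportion K d G 𝔪 (∀ h, QuadAlg K 𝔪 (a h) (b h)) δ

/-- The group `G` is transitive. -/
def IsTransitive {d : ℕ} (G : Subgroup (Equiv.Perm (Fin d))) : Prop :=
  ∀ i j : Fin d, ∃ g ∈ G, g i = j

theorem ind_eq {d : ℕ} (g : Equiv.Perm (Fin d)) : ind g = Pool.Agent.TH444.ML.ind g := by
  have h1 := Pool.Agent.TH444.ML.two_card_le g
  have h2 : g.support.card ≤ d := by
    simpa using Finset.card_le_univ g.support
  unfold ind Pool.Agent.TH444.ML.ind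
  rw [Equiv.Perm.parts_partition, Multiset.card_add, Multiset.card_replicate,
    Equiv.Perm.sum_cycleType, Fintype.card_fin]
  rw [Equiv.Perm.sum_cycleType] at h1
  omega

theorem minInd_eq {H : Type} [Group H] [Finite H] {d : ℕ} {G : Subgroup (Equiv.Perm (Fin d))}
    (hG : IsC2Wreath H G) : minInd G = 1 := by
  have h := Pool.Agent.TH444.ML.least_ind (H := H) hG
  have h1 : {k : ℕ | ∃ g ∈ G, g ≠ 1 ∧ k = ind g} =
      {k : ℕ | ∃ g ∈ G, g ≠ 1 ∧ k = Pool.Agent.TH444.ML.ind g} := by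
    simp only [ind_eq]
  unfold minInd
  rw [h1]
  exact h.csInf_eq

theorem β_eq (K : Type) [Field K] {H : Type} [Group H] [Finite H] (h2 : 2 ≤ Nat.card H) {d : ℕ}
    {G : Subgroup (Equiv.Perm (Fin d))} (hG : IsC2Wreath H G) : β K G = 1 := by
  unfold β
  rw [Nat.card_eq_one_iff_unique]
  constructor
  · constructor
    intro x y
    induction x using Quot.inductionOn with
    | h g =>
      induction y using Quot.inductionOn with
      | h g' =>
        apply Quot.sound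
        have hm := minInd_eq hG
        have h1 := (ind_eq g.1).symm.trans (g.2.2.2.trans hm)
        have h1' := (ind_eq g'.1).symm.trans (g'.2.2.2.trans hm)
        obtain ⟨c, hc⟩ := isConj_iff.1 (Pool.Agent.TH444.ML.conj_of_ind_one h2 hG
          ⟨g.1, g.2.1⟩ ⟨g'.1, g'.2.1⟩ h1 h1')
        refine ⟨AlgEquiv.refl, 1, fun ζ _ => by simp, c.1, c.2, ?_⟩
        rw [pow_one]
        exact (congrArg Subtype.val hc).symm
  · obtain ⟨g, h3, h4, h5⟩ := Pool.Agent.TH444.ML.exists_ind_one (H := H) hG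
    exact ⟨Quot.mk _ ⟨g, h3, h4, by rw [minInd_eq hG, ind_eq, h5]⟩⟩

theorem hasLoc_top (K : Type) [Field K] (L : Type) [Field L] [Algebra K L] :
    HasLoc K L (⊤ : Ideal (𝓞 K)) PUnit := by
  have h : (⊤ : Ideal (𝓞 K)).map (algebraMap (𝓞 K) (𝓞 L)) = ⊤ := Ideal.map_top _
  have hs : Subsingleton (Loc K L (⊤ : Ideal (𝓞 K))) := by
    unfold Loc
    rw [h]
    exact Ideal.Quotient.subsingleton_iff.2 rfl
  exact ⟨{ toFun := fun _ => PUnit.unit
           invFun := fun _ => 0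
           left_inv := fun x => Subsingleton.elim _ _
           right_inv := fun x => rfl
           map_mul' := fun _ _ => rfl
           map_add' := fun _ _ => rfl
           commutes' := fun _ => rfl }⟩

theorem N_eq (K : Type) [Field K] [NumberField K] (d : ℕ)
    (G : Subgroup (Equiv.Perm (Fin d))) (B : ℝ) : NLoc K d G ⊤ PUnit B = N K d G B := by
  have h : {L : IntermediateField K (AlgebraicClosure K) |
      L ∈ Ext K d G B ∧ HasLoc K L (⊤ : Ideal (𝓞 K)) PUnit} = Ext K d G B := by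
    ext L
    exact ⟨fun h => h.1, fun h => ⟨h, hasLoc_top K L⟩⟩
  unfold NLoc N
  rw [h]

theorem isAdmissible_of_solvable (H : Type) [Group H] (h : Group.IsSolvable H) :
    IsAdmissible H :=
  ⟨⊤, inferInstance, inferInstance, Or.inl rfl⟩

theorem isAdmissible_of_coreFree (H : Type) [Group H] (U : Subgroup H)
    (hU : U.normalCore = ⊥) (hc : 4 * U.index ^ 2 < 3 * Nat.card H) : IsAdmissible H := by
  let e : H ⧸ (⊥ : Subgroup H) ≃* H := QuotientGroup.quotientBot
  refine ⟨⊥, inferInstance, inferInstance, Or.inr ⟨U.comap e.toMonoidHom, ?_, ?_⟩⟩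
  · rw [eq_bot_iff]
    intro x hx
    have h1 : e x ∈ U.normalCore := by
      intro b
      have h2 := hx (e.symm b)
      have h3 : e (e.symm b * x * (e.symm b)⁻¹) ∈ U := h2
      simpa using h3
    rw [hU, Subgroup.mem_bot] at h1
    rw [Subgroup.mem_bot]
    exact (map_eq_one_iff e e.injective).1 h1
  · have h1 : (U.comap e.toMonoidHom).index = U.index :=
      Subgroup.index_comap_of_surjective U e.surjective
    rw [h1, Nat.card_congr e.toEquiv]
    exact hc

theorem isAdmissible_perm (m : ℕ) (hm : 5 ≤ m) : IsAdmissible (Equiv.Perm (Fin m)) := by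
  obtain ⟨k, rfl⟩ : ∃ k, m = k + 5 := ⟨m - 5, by omega⟩
  let U : Subgroup (Equiv.Perm (Fin (k + 5))) := MulAction.stabilizer _ (0 : Fin (k + 5))
  have hS : U.index = k + 5 := by
    change (MulAction.stabilizer (Equiv.Perm (Fin (k + 5))) (0 : Fin (k + 5))).index = k + 5
    rw [MulAction.index_stabilizer, MulAction.orbit_eq_univ]
    simp
  refine isAdmissible_of_coreFree _ U ?_ ?_
  · rw [eq_bot_iff]
    intro π h
    have h1 : ∀ x : Equiv.Perm (Fin (k + 5)), x * π * x⁻¹ ∈ U := h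
    rw [Subgroup.mem_bot]
    ext i
    have h2 := h1 (Equiv.swap 0 i)
    have h3 : (Equiv.swap 0 i * π * (Equiv.swap 0 i)⁻¹) (0 : Fin (k + 5)) = 0 := h2
    rw [Equiv.Perm.mul_apply, Equiv.Perm.mul_apply, Equiv.swap_inv, Equiv.swap_apply_left] at h3
    have h4 := congrArg (Equiv.swap 0 i) h3
    rw [Equiv.swap_apply_self, Equiv.swap_apply_left] at h4
    rw [h4]; rfl
  · rw [hS, Nat.card_perm, Nat.card_fin]
    have hf : (k + 5).factorial = (k + 5) * ((k + 4) * ((k + 3) * (k + 2).factorial)) := by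
      simp only [Nat.factorial_succ]
    have h2 : 2 ≤ (k + 2).factorial := by
      have := Nat.self_le_factorial (k + 2)
      omega
    rw [hf]
    have h3 : (k + 5) * ((k + 4) * ((k + 3) * 2)) ≤
        (k + 5) * ((k + 4) * ((k + 3) * (k + 2).factorial)) := by gcongr
    nlinarith

/-- The group `C₂ ≀ H` exists, and is transitive. -/
theorem exists_group (H : Type) [Group H] [Finite H] : ∃ (d : ℕ)
    (G : Subgroup (Equiv.Perm (Fin d))), d = 2 * Nat.card H ∧ IsC2Wreath H G ∧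
      IsTransitive G := by
  have hcard : Nat.card (H × Bool) = 2 * Nat.card H := by
    rw [Nat.card_prod, mul_comm]
    simp
  let f : Fin (2 * Nat.card H) ≃ H × Bool := (Finite.equivFinOfCardEq hcard).symm
  let G : Subgroup (Equiv.Perm (Fin (2 * Nat.card H))) :=
    { carrier := {π | ∃ h : H, ∀ i, (f (π i)).1 = h * (f i).1}
      one_mem' := ⟨1, fun i => by simp⟩
      mul_mem' := by
        rintro π ρ ⟨h, hh⟩ ⟨h', hh'⟩
        refine ⟨h * h', fun i => ?_⟩
        rw [Equiv.Perm.mul_apply, hh, hh', mul_assoc]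
      inv_mem' := by
        rintro π ⟨h, hh⟩
        refine ⟨h⁻¹, fun i => ?_⟩
        have h1 := hh (π⁻¹ i)
        rw [show π (π⁻¹ i) = i from π.apply_symm_apply i] at h1
        rw [h1, inv_mul_cancel_left] }
  refine ⟨2 * Nat.card H, G, rfl, ⟨f, fun π => Iff.rfl⟩, fun i j => ?_⟩
  let t : Equiv.Perm (H × Bool) :=
    (Equiv.mulLeft ((f j).1 * (f i).1⁻¹)).prodCongr (Equiv.swap (f i).2 (f j).2)
  refine ⟨f.trans (t.trans f.symm), ⟨(f j).1 * (f i).1⁻¹, fun x => ?_⟩, ?_⟩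
  · simp [t]
  · change f.symm (t (f i)) = j
    rw [Equiv.symm_apply_eq]
    exact Prod.ext (by simp [t]) (by simp [t])

/-- **Malle's conjecture for `C₂ ≀ H` over sufficiently large number fields, with local
conditions.** Solvable groups and the symmetric groups `S_m` are admissible. For all admissible groups
`H` with at least two elements, `G = C₂ ≀ H ≤ S_d`, there is a number field `K₀` such that for all
number fields `K ⊇ K₀`
1. `β_K(G) = 1` and `n_K(G, B) ∼ C B ^ (1 / ind G) (log B) ^ (β_K(G) - 1)` with `C > 0`;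
2. for all ideals `𝔪 ≠ 0` of `𝓞_K` and all `𝓞_K`-algebras `R` the proportion
   `n_K(G, B; R) / n_K(G, B)` converges to some `δ ≥ 0`, and `δ > 0` if and only if
   `𝓞_L / 𝔪 𝓞_L ≅ R` for at least one `G`-extension `L` of `K`;
3. `δ > 0` for `R = ∏_{h ∈ H} 𝓞_K[X] / (𝔪, X² + a_h X + b_h)`, for all families of polynomials
   which define maximal orders at the primes dividing `𝔪`. -/
theorem result :
    (∀ (H : Type) [Group H], Group.IsSolvable H → IsAdmissible H) ∧
    (∀ m : ℕ, 5 ≤ m → IsAdmissible (Equiv.Perm (Fin m))) ∧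
    ∀ (H : Type) [Group H] [Finite H], 2 ≤ Nat.card H → IsAdmissible H →
      (∃ (d : ℕ) (G : Subgroup (Equiv.Perm (Fin d))), d = 2 * Nat.card H ∧ IsC2Wreath H G ∧
        IsTransitive G) ∧
      ∀ (d : ℕ) (G : Subgroup (Equiv.Perm (Fin d))), IsC2Wreath H G →
        minInd G = 1 ∧ ∃ (K₀ : Type) (_ : Field K₀) (_ : NumberField K₀),
          ∀ (K : Type) [Field K] [NumberField K] [Algebra K₀ K],
            β K G = 1 ∧ MalleFormula K d G ∧
            ∀ 𝔪 : Ideal (𝓞 K), 𝔪 ≠ ⊥ → LocalLaw K d G 𝔪 ∧ AllQuadratic K H d G 𝔪 := by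
  classical
  refine ⟨fun H _ h => isAdmissible_of_solvable H h, isAdmissible_perm, ?_⟩
  intro H _ _ h2 hH
  refine ⟨exists_group H, ?_⟩
  intro d G hG
  have := Fintype.ofFinite H
  refine ⟨minInd_eq hG, ?_⟩
  obtain ⟨K₀, i1, i2, hK₀⟩ := Pool.Agent.H419.MK.exists_type
    (Pool.Agent.H419.MK.FAM.t_FAM Pool.Agent.H419.MK.RGP.t_RGP
      (Pool.Agent.H419.MK.SPC.t_SPC Pool.Agent.H419.MK.HITZ.t_HITZ)) Pool.Agent.H419.MK.SPL.t_SPL
    Pool.Agent.H419.MK.IDL.t_IDL Pool.Agent.H419.MK.APR.t_APR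
    (Pool.Agent.H419.MK.ISO.t_ISO Pool.Agent.H419.MK.QMX.t_QMX) H
  refine ⟨K₀, i1, i2, ?_⟩
  intro K _ _ _
  obtain ⟨s, hs, hsum⟩ := Pool.Agent.H419.MK.sum2 K (AlgebraicClosure K) H hH
  have core := fun (𝔪 : Ideal (𝓞 K)) (h𝔪 : 𝔪 ≠ ⊥) (R : Type) (i3 : CommRing R)
    (i4 : Algebra (𝓞 K) R) => Pool.Agent.H419.MK.coreQ Pool.Agent.H419.MK.MAINQ.t_MAINQ K H h2
      s hs hsum G hG 𝔪 h𝔪 R
  -- the count without conditions
  have htop : (⊤ : Ideal (𝓞 K)) ≠ ⊥ := top_ne_bot
  obtain ⟨C, hC0, hlim, -, hC⟩ := core ⊤ htop PUnit inferInstance inferInstance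
  have hCpos : 0 < C := by
    obtain ⟨M, hM, L, h3, h4, -⟩ := hK₀ K ⊤ htop (fun _ => 0) (fun _ => 0)
      (fun _ P hP hle => absurd (top_le_iff.1 hle) hP.ne_top)
    rw [hC]
    exact ⟨M, hM, Or.inl ⟨L, h3, h4, hasLoc_top K L⟩⟩
  have hlimN : Tendsto (fun B : ℝ => (N K d G B : ℝ) / B) atTop (nhds C) := by
    refine hlim.congr fun B => ?_
    rw [← N_eq]
    rfl
  have hratio : ∀ (f : ℝ → ℝ) (c : ℝ), Tendsto (fun B : ℝ => f B / B) atTop (nhds c) →
      Tendsto (fun B : ℝ => f B / N K d G B) atTop (nhds (c / C)) := by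
    intro f c hf
    refine (hf.div hlimN hCpos.ne').congr' ?_
    filter_upwards [eventually_gt_atTop (0 : ℝ)] with B hB
    have hB' : B ≠ 0 := hB.ne'
    rw [Pi.div_apply, div_div_div_cancel_right₀ hB']
  refine ⟨β_eq K h2 hG, ⟨C, hCpos, ?_⟩, ?_⟩
  · rw [minInd_eq hG, β_eq K h2 hG]
    simp only [Nat.cast_one, div_one, Real.rpow_one, Nat.sub_self, pow_zero, mul_one]
    exact hlimN
  intro 𝔪 h𝔪
  constructor
  · intro R _ _
    obtain ⟨c, hc0, hlc, hc1, -⟩ := core 𝔪 h𝔪 R inferInstance inferInstance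
    refine ⟨c / C, by positivity, hratio _ c hlc, ?_⟩
    rw [div_pos_iff_of_pos_right hCpos, hc1]
    rfl
  · intro a b hab
    obtain ⟨c, hc0, hlc, -, hc1⟩ := core 𝔪 h𝔪 (∀ h, QuadAlg K 𝔪 (a h) (b h)) inferInstance
      inferInstance
    have hcpos : 0 < c := by
      obtain ⟨M, hM, L, h3, h4, h5⟩ := hK₀ K 𝔪 h𝔪 a b hab
      rw [hc1]
      exact ⟨M, hM, Or.inl ⟨L, h3, h4, h5⟩⟩
    exact ⟨c / C, by positivity, hratio _ c hlc⟩

end Pool.Agent.Results.MP_b39724_nt.LocalConditions
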