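import Pool.Agent.H419.RM.Fin
import Pool.Agent.H419.AC.BAU
import Pool.Agent.H419.AC.NSP
import Pool.Agent.H419.MK.Sum2
import Pool.Agent.H419.MK.Fin
import Pool.Agent.H419.MK.HITZ
import Pool.Agent.H419.MK.SPC
import Pool.Agent.H419.MK.RGP
import Pool.Agent.H419.MK.FAM
import Pool.Agent.H419.MK.SPL

/-!
# The ramification of `C₂ ≀ H`-extensions at disjoint sets of primes is dependent

`H` is a finite group with at least two elements which has a solvable normal subgroup `S` such that
`H / S` is trivial or has a faithful transitive action on `u` points, `4 u ^ 2 < 3 |H / S|`; for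
example any nontrivial solvable group and any symmetric group. The group `H` acts on itself by
multiplication, and `G = C₂ ≀ H` acts on `H × {0, 1}`. There is a number field `K₀` such that over all
number fields `K ⊇ K₀` there are disjoint sets `T`, `T'` of primes such that a positive proportion of
all `G`-extensions of `K` is unramified at all primes in `T`, a positive proportion is unramified at
all primes in `T'`, but the proportion of those with both properties is `0`. In fact `T` can be taken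
as the set of the primes which are unramified and not totally split in any given Galois extension of
`K` with group `H`. Over an arbitrary number field `K` such sets exist if and only if `K` has at least
two Galois extensions with group `H` in its algebraic closure.
-/

set_option autoImplicit false

open Filter NumberField

namespace Pool.Agent.Results.MP_b39724_nt.RamificationDependence

/-- `G ≤ S_d` is, up to a bijection `f` of `{1, ..., d}` with `H × {0, 1}`, the wreath product
`C₂ ≀ H`: it consists of all permutations `π` for which there is `h ∈ H` such that `π` maps the block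
`{x} × {0, 1}` to the block `{h x} × {0, 1}`, for all `x ∈ H`. -/
def IsC2Wreath (H : Type) [Group H] {d : ℕ} (G : Subgroup (Equiv.Perm (Fin d))) : Prop :=
  ∃ f : Fin d ≃ H × Bool, ∀ π : Equiv.Perm (Fin d), π ∈ G ↔ ∃ h : H, ∀ i, (f (π i)).1 = h * (f i).1

/-- `H` has a solvable normal subgroup `S` such that `H / S` is trivial or has a faithful transitive
action on `u` points (the cosets of `U`) with `4 u ^ 2 < 3 |H / S|`. -/
def IsAdmissible (H : Type) [Group H] : Prop :=
  ∃ (S : Subgroup H) (_ : S.Normal), Group.IsSolvable S ∧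
    (S = ⊤ ∨ ∃ U : Subgroup (H ⧸ S), U.normalCore = ⊥ ∧
      4 * U.index ^ 2 < 3 * Nat.card (H ⧸ S))

/-- `M / K` is a finite Galois extension with group isomorphic to `H`. -/
def IsExt (K : Type) [Field K] (H : Type) [Group H]
    (M : IntermediateField K (AlgebraicClosure K)) : Prop :=
  FiniteDimensional K M ∧ IsGalois K M ∧ Nonempty ((M ≃ₐ[K] M) ≃* H)

/-- The fields `L` between `K` and its algebraic closure, of degree `d` over `K`, whose Galois group,
acting on the embeddings, is `G` (up to numbering), and whose relative discriminant has norm at most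
`B` (that is, `|d_L| ≤ B |d_K| ^ d`). -/
def Ext (K : Type) [Field K] [NumberField K] (d : ℕ) (G : Subgroup (Equiv.Perm (Fin d)))
    (B : ℝ) : Set (IntermediateField K (AlgebraicClosure K)) :=
  {L | Module.finrank K L = d ∧
    (∃ e : (L →ₐ[K] AlgebraicClosure K) ≃ Fin d, ∀ π : Equiv.Perm (Fin d),
      π ∈ G ↔ ∃ σ : AlgebraicClosure K ≃ₐ[K] AlgebraicClosure K,
        ∀ φ : L →ₐ[K] AlgebraicClosure K, e (σ.toAlgHom.comp φ) = π (e φ)) ∧
    ∃ h : NumberField L,
      ((|@NumberField.discr L _ h| : ℤ) : ℝ) ≤ B * ((|NumberField.discr K| : ℤ) : ℝ) ^ d}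

/-- `L / K` is unramified at the prime `𝔭` of `K`: the ring `𝓞_L / 𝔭 𝓞_L` is reduced. -/
def Unramified (K : Type) [Field K] (L : Type) [Field L] [Algebra K L] (𝔭 : Ideal (𝓞 K)) : Prop :=
  IsReduced (𝓞 L ⧸ 𝔭.map (algebraMap (𝓞 K) (𝓞 L)))

/-- The prime `𝔭` of `K` is totally split in `M`: there are `[M : K]` primes of `M` above `𝔭`. -/
def TotallySplit (K : Type) [Field K] (M : Type) [Field M] [Algebra K M] (𝔭 : Ideal (𝓞 K)) :
    Prop :=
  Set.ncard (𝔭.primesOver (𝓞 M)) = Module.finrank K M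

/-- A set of (nonzero) primes of `K`. -/
def IsPrimeSet (K : Type) [Field K] (T : Set (Ideal (𝓞 K))) : Prop :=
  ∀ 𝔭 ∈ T, 𝔭.IsPrime ∧ 𝔭 ≠ ⊥

/-- The sum of `1 / N 𝔭` over all `𝔭 ∈ T` converges. -/
def IsSparse (K : Type) [Field K] [NumberField K] (T : Set (Ideal (𝓞 K))) : Prop :=
  Summable (fun 𝔭 : T => (1 : ℝ) / Ideal.absNorm 𝔭.1)

/-- The primes of `K` which are unramified and not totally split in `M`. -/
def NonSplit (K : Type) [Field K] (M : IntermediateField K (AlgebraicClosure K)) :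
    Set (Ideal (𝓞 K)) :=
  {𝔭 | (𝔭.IsPrime ∧ 𝔭 ≠ ⊥) ∧ Unramified K M 𝔭 ∧ ¬ TotallySplit K M 𝔭}

/-- `N(K, G; B)`: the number of the fields in `Ext K d G B` up to `K`-isomorphism. -/
noncomputable def N (K : Type) [Field K] [NumberField K] (d : ℕ)
    (G : Subgroup (Equiv.Perm (Fin d))) (B : ℝ) : ℕ :=
  Nat.card (Quot fun L L' : Ext K d G B => Nonempty (L.1 ≃ₐ[K] L'.1))

/-- `N(K, G; B; T)`: the number of those which are unramified at all `𝔭 ∈ T`. -/
noncomputable def NUnr (K : Type) [Field K] [NumberField K] (d : ℕ)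
    (G : Subgroup (Equiv.Perm (Fin d))) (T : Set (Ideal (𝓞 K))) (B : ℝ) : ℕ :=
  Nat.card (Quot fun L L' : {L : IntermediateField K (AlgebraicClosure K) |
    L ∈ Ext K d G B ∧ ∀ 𝔭 ∈ T, Unramified K L 𝔭} => Nonempty (L.1 ≃ₐ[K] L'.1))

/-- The proportion of the `G`-extensions of `K` which are unramified at all `𝔭 ∈ T` is `δ`. -/
def HasProportion (K : Type) [Field K] [NumberField K] (d : ℕ)
    (G : Subgroup (Equiv.Perm (Fin d))) (T : Set (Ideal (𝓞 K))) (δ : ℝ) : Prop :=
  Tendsto (fun B : ℝ => (NUnr K d G T B : ℝ) / N K d G B) atTop (nhds δ)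

/-- `T` and `T'` are disjoint sets of primes, a positive proportion of the `G`-extensions of `K` is
unramified at all primes in `T`, a positive proportion is unramified at all primes in `T'`, and the
proportion of those which are unramified at all primes in `T` and `T'` is zero. -/
def AreExclusive (K : Type) [Field K] [NumberField K] (d : ℕ)
    (G : Subgroup (Equiv.Perm (Fin d))) (T T' : Set (Ideal (𝓞 K))) : Prop :=
  IsPrimeSet K T ∧ IsPrimeSet K T' ∧ Disjoint T T' ∧
    (∃ δ : ℝ, 0 < δ ∧ HasProportion K d G T δ) ∧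
    (∃ δ : ℝ, 0 < δ ∧ HasProportion K d G T' δ) ∧ HasProportion K d G (T ∪ T') 0

/-- `M / K` is unramified at all `𝔭 ∈ T`, and the sum of `1 / N 𝔭` over those `𝔭 ∈ T` which are
totally split in `M` converges. -/
def IsGood (K : Type) [Field K] [NumberField K] (T : Set (Ideal (𝓞 K)))
    (M : IntermediateField K (AlgebraicClosure K)) : Prop :=
  (∀ 𝔭 ∈ T, Unramified K M 𝔭) ∧ IsSparse K {𝔭 : Ideal (𝓞 K) | 𝔭 ∈ T ∧ TotallySplit K M 𝔭}

theorem isAdmissible_of_solvable (H : Type) [Group H] (h : Group.IsSolvable H) :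
    IsAdmissible H :=
  ⟨⊤, inferInstance, inferInstance, Or.inl rfl⟩

theorem isAdmissible_of_coreFree (H : Type) [Group H] (U : Subgroup H)
    (hU : U.normalCore = ⊥) (hc : 4 * U.index ^ 2 < 3 * Nat.card H) : IsAdmissible H := by
  let e : H ⧸ (⊥ : Subgroup H) ≃* H := QuotientGroup.quotientBot
  refine ⟨⊥, inferInstance, inferInstance, Or.inr ⟨U.comap e.toMonoidHom, ?_, ?_⟩⟩
  · rw [eq_bot_iff]
    intro x hx
    have h1 : e x ∈ U.normalCore := by
      intro b
      have h2 := hx (e.symm b)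
      have h3 : e (e.symm b * x * (e.symm b)⁻¹) ∈ U := h2
      simpa using h3
    rw [hU, Subgroup.mem_bot] at h1
    rw [Subgroup.mem_bot]
    exact (map_eq_one_iff e e.injective).1 h1
  · have h1 : (U.comap e.toMonoidHom).index = U.index :=
      Subgroup.index_comap_of_surjective U e.surjective
    rw [h1, Nat.card_congr e.toEquiv]
    exact hc

theorem isAdmissible_perm (m : ℕ) (hm : 5 ≤ m) : IsAdmissible (Equiv.Perm (Fin m)) := by
  obtain ⟨k, rfl⟩ : ∃ k, m = k + 5 := ⟨m - 5, by omega⟩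
  let U : Subgroup (Equiv.Perm (Fin (k + 5))) := MulAction.stabilizer _ (0 : Fin (k + 5))
  have hS : U.index = k + 5 := by
    change (MulAction.stabilizer (Equiv.Perm (Fin (k + 5))) (0 : Fin (k + 5))).index = k + 5
    rw [MulAction.index_stabilizer, MulAction.orbit_eq_univ]
    simp
  refine isAdmissible_of_coreFree _ U ?_ ?_
  · rw [eq_bot_iff]
    intro π h
    have h1 : ∀ x : Equiv.Perm (Fin (k + 5)), x * π * x⁻¹ ∈ U := h
    rw [Subgroup.mem_bot]
    ext i
    have h2 := h1 (Equiv.swap 0 i)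
    have h3 : (Equiv.swap 0 i * π * (Equiv.swap 0 i)⁻¹) (0 : Fin (k + 5)) = 0 := h2
    rw [Equiv.Perm.mul_apply, Equiv.Perm.mul_apply, Equiv.swap_inv, Equiv.swap_apply_left] at h3
    have h4 := congrArg (Equiv.swap 0 i) h3
    rw [Equiv.swap_apply_self, Equiv.swap_apply_left] at h4
    rw [h4]; rfl
  · rw [hS, Nat.card_perm, Nat.card_fin]
    have hf : (k + 5).factorial = (k + 5) * ((k + 4) * ((k + 3) * (k + 2).factorial)) := by
      simp only [Nat.factorial_succ]
    have h2 : 2 ≤ (k + 2).factorial := by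
      have := Nat.self_le_factorial (k + 2)
      omega
    rw [hf]
    have h3 : (k + 5) * ((k + 4) * ((k + 3) * 2)) ≤
        (k + 5) * ((k + 4) * ((k + 3) * (k + 2).factorial)) := by gcongr
    nlinarith

theorem sparse_mono (K : Type) [Field K] [NumberField K] (T T' : Set (Ideal (𝓞 K)))
    (h : T' ⊆ T) (h3 : IsSparse K T) : IsSparse K T' := by
  have h4 : Summable (fun 𝔭 : T => (1 : ℝ) / Ideal.absNorm 𝔭.1) := h3
  have h5 : Summable ((fun 𝔭 : T => (1 : ℝ) / Ideal.absNorm 𝔭.1) ∘ Set.inclusion h) :=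
    h4.comp_injective (Set.inclusion_injective h)
  exact h5

theorem sparse_empty (K : Type) [Field K] [NumberField K] (T : Set (Ideal (𝓞 K)))
    (h : T ⊆ ∅) : IsSparse K T := by
  have h0 : T = ∅ := Set.subset_empty_iff.1 h
  subst h0
  exact summable_empty

theorem N_eq (K : Type) [Field K] [NumberField K] (d : ℕ)
    (G : Subgroup (Equiv.Perm (Fin d))) (B : ℝ) : NUnr K d G ∅ B = N K d G B := by
  have h : {L : IntermediateField K (AlgebraicClosure K) |
      L ∈ Ext K d G B ∧ ∀ 𝔭 ∈ (∅ : Set (Ideal (𝓞 K))), Unramified K L 𝔭} = Ext K d G B := by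
    ext L
    exact ⟨fun h => h.1, fun h => ⟨h, fun 𝔭 h𝔭 => absurd h𝔭 (Set.notMem_empty 𝔭)⟩⟩
  unfold NUnr N
  rw [h]

theorem sparse_union (K : Type) [Field K] [NumberField K] (T T' : Set (Ideal (𝓞 K)))
    (h : IsSparse K T) (h' : IsSparse K T') : IsSparse K (T ∪ T') := by
  have h1 : Summable (T.indicator (fun 𝔭 : Ideal (𝓞 K) => (1 : ℝ) / Ideal.absNorm 𝔭)) :=
    summable_subtype_iff_indicator.1 h
  have h2 : Summable (T'.indicator (fun 𝔭 : Ideal (𝓞 K) => (1 : ℝ) / Ideal.absNorm 𝔭)) :=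
    summable_subtype_iff_indicator.1 h'
  have h3 : Summable ((T ∪ T').indicator (fun 𝔭 : Ideal (𝓞 K) => (1 : ℝ) / Ideal.absNorm 𝔭)) := by
    refine Summable.of_nonneg_of_le (fun 𝔭 => ?_) (fun 𝔭 => ?_) (h1.add h2)
    · exact Set.indicator_nonneg (fun _ _ => by positivity) _
    · have p1 : 0 ≤ T.indicator (fun 𝔭 : Ideal (𝓞 K) => (1 : ℝ) / Ideal.absNorm 𝔭) 𝔭 :=
        Set.indicator_nonneg (fun _ _ => by positivity) _
      have p2 : 0 ≤ T'.indicator (fun 𝔭 : Ideal (𝓞 K) => (1 : ℝ) / Ideal.absNorm 𝔭) 𝔭 :=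
        Set.indicator_nonneg (fun _ _ => by positivity) _
      by_cases h4 : 𝔭 ∈ T
      · have e1 : 𝔭 ∈ T ∪ T' := Or.inl h4
        rw [Set.indicator_of_mem e1, Set.indicator_of_mem h4]
        linarith
      · by_cases h5 : 𝔭 ∈ T'
        · have e1 : 𝔭 ∈ T ∪ T' := Or.inr h5
          rw [Set.indicator_of_mem e1, Set.indicator_of_mem h5]
          linarith
        · have e1 : 𝔭 ∉ T ∪ T' := fun h6 => h6.elim h4 h5
          rw [Set.indicator_of_notMem e1]
          linarith
  exact summable_subtype_iff_indicator.2 h3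

/-- the law for one set of primes -/
theorem law (K : Type) [Field K] [NumberField K] (H : Type) [Group H] [Finite H]
    (h2 : 2 ≤ Nat.card H) (hH : IsAdmissible H) {d : ℕ} {G : Subgroup (Equiv.Perm (Fin d))}
    (hG : IsC2Wreath H G) (T : Set (Ideal (𝓞 K))) (hT : IsPrimeSet K T) :
    ∃ c : ℝ, 0 ≤ c ∧ Tendsto (fun B : ℝ => (NUnr K d G T B : ℝ) / B) atTop (nhds c) ∧
      (0 < c ↔ ∃ M : IntermediateField K (AlgebraicClosure K), IsExt K H M ∧ IsGood K T M) := by
  obtain ⟨s, hs, hsum⟩ := Pool.Agent.H419.MK.sum2 K (AlgebraicClosure K) H hH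
  obtain ⟨c, hc0, hlim, hc⟩ := Pool.Agent.H419.RM.coreS K H h2 s hs hsum G hG T hT
  refine ⟨c, hc0, hlim, ?_⟩
  rw [hc]
  constructor
  · rintro ⟨M, hM, h3, _, h4⟩
    exact ⟨M, hM, h3, h4⟩
  · rintro ⟨M, hM, h3, h4⟩
    have hfd : FiniteDimensional K M := hM.1
    have hnf : NumberField M := Pool.Agent.TH444.ML.nf_of_fd M
    exact ⟨M, hM, h3, hnf, h4⟩

/-- the proportion for one set of primes -/
theorem prop_law (K : Type) [Field K] [NumberField K] (H : Type) [Group H] [Finite H]
    (h2 : 2 ≤ Nat.card H) (hH : IsAdmissible H) {d : ℕ} {G : Subgroup (Equiv.Perm (Fin d))}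
    (hG : IsC2Wreath H G) (T : Set (Ideal (𝓞 K))) (hT : IsPrimeSet K T)
    (hex : ∃ M : IntermediateField K (AlgebraicClosure K), IsExt K H M) :
    ∃ δ : ℝ, 0 ≤ δ ∧ HasProportion K d G T δ ∧
      (0 < δ ↔ ∃ M : IntermediateField K (AlgebraicClosure K), IsExt K H M ∧ IsGood K T M) := by
  obtain ⟨M, hM⟩ := hex
  obtain ⟨c, hc0, hlim, hc⟩ := law K H h2 hH hG T hT
  obtain ⟨C, -, hC, hCiff⟩ := law K H h2 hH hG ∅ (fun 𝔭 h => absurd h (Set.notMem_empty 𝔭))
  have hCpos : 0 < C := by
    rw [hCiff]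
    refine ⟨M, hM, fun 𝔭 h => absurd h (Set.notMem_empty 𝔭), ?_⟩
    exact sparse_empty K _ (fun 𝔭 h => h.1)
  have hlimN : Tendsto (fun B : ℝ => (N K d G B : ℝ) / B) atTop (nhds C) := by
    refine hC.congr fun B => ?_
    rw [N_eq]
  refine ⟨c / C, by positivity, ?_, ?_⟩
  · refine (hlim.div hlimN hCpos.ne').congr' ?_
    filter_upwards [eventually_gt_atTop (0 : ℝ)] with B hB
    have hB' : B ≠ 0 := hB.ne'
    rw [Pi.div_apply, div_div_div_cancel_right₀ hB']
  · rw [div_pos_iff_of_pos_right hCpos, hc]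

/-- no `G`-extensions without `H`-extensions -/
theorem N_zero (K : Type) [Field K] [NumberField K] (H : Type) [Group H] [Finite H]
    {d : ℕ} {G : Subgroup (Equiv.Perm (Fin d))} (hG : IsC2Wreath H G)
    (hex : ¬ ∃ M : IntermediateField K (AlgebraicClosure K), IsExt K H M) (B : ℝ) :
    N K d G B = 0 := by
  have hemp : IsEmpty (Ext K d G B) := by
    refine ⟨fun L => hex ?_⟩
    have hL' : L.1 ∈ Pool.Agent.TH444.ML.Cnt K G B := L.2
    rw [Pool.Agent.TH444.ML.cnt_eq K hG] at hL'
    obtain ⟨M, hM⟩ := (Pool.Agent.TH365.J3099.wrIff K (AlgebraicClosure K) H L.1).1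
      ⟨hL'.1, hL'.2.1⟩
    exact ⟨M, hM.1⟩
  have : IsEmpty (Quot fun L L' : Ext K d G B => Nonempty (L.1 ≃ₐ[K] L'.1)) :=
    ⟨fun q => Quot.inductionOn q fun L => hemp.false L⟩
  unfold N
  exact Nat.card_of_isEmpty

/-- two different extensions with group `H` cannot both be good for the same large set -/
theorem not_good (K : Type) [Field K] [NumberField K] (H : Type) [Group H] [Finite H]
    {M M' : IntermediateField K (AlgebraicClosure K)} (hM : IsExt K H M) (hM' : IsExt K H M')
    (hne : M ≠ M') (T : Set (Ideal (𝓞 K))) (hsub : NonSplit K M' ⊆ T) : ¬ IsGood K T M := by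
  rintro ⟨-, h⟩
  have hd : Module.finrank K M = Module.finrank K M' := by
    have h1 := hM.1
    have h1' := hM'.1
    have h3 := hM.2.1
    have h3' := hM'.2.1
    obtain ⟨e⟩ := hM.2.2
    obtain ⟨e'⟩ := hM'.2.2
    rw [← IsGalois.card_aut_eq_finrank K M, ← IsGalois.card_aut_eq_finrank K M',
      Nat.card_congr e.toEquiv, Nat.card_congr e'.toEquiv]
  refine Pool.Agent.H419.AC.BAU.t_BAU K (AlgebraicClosure K) M M' hM.1 hM'.1 hM.2.1 hM'.2.1 hd
    hne ?_
  refine sparse_mono K _ _ ?_ h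
  rintro 𝔭 ⟨h1, h3, h4, h5, h6⟩
  exact ⟨hsub ⟨⟨h1, h3⟩, h5, h6⟩, h4⟩

theorem exclusive_of_ne (K : Type) [Field K] [NumberField K] (H : Type) [Group H] [Finite H]
    (h2 : 2 ≤ Nat.card H) (hH : IsAdmissible H) {d : ℕ} {G : Subgroup (Equiv.Perm (Fin d))}
    (hG : IsC2Wreath H G) {M M' : IntermediateField K (AlgebraicClosure K)} (hM : IsExt K H M)
    (hM' : IsExt K H M') (hne : M ≠ M') :
    AreExclusive K d G (NonSplit K M) (NonSplit K M' \ NonSplit K M) := by
  have hp : IsPrimeSet K (NonSplit K M) := fun 𝔭 h => h.1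
  have hp' : IsPrimeSet K (NonSplit K M' \ NonSplit K M) := fun 𝔭 h => h.1.1
  have hpu : IsPrimeSet K (NonSplit K M ∪ NonSplit K M' \ NonSplit K M) :=
    fun 𝔭 h => h.elim (hp 𝔭) (hp' 𝔭)
  refine ⟨hp, hp', Set.disjoint_sdiff_right, ?_, ?_, ?_⟩
  · obtain ⟨δ, -, h3, h4⟩ := prop_law K H h2 hH hG _ hp ⟨M, hM⟩
    exact ⟨δ, h4.2 ⟨M, hM, fun 𝔭 h => h.2.1,
      sparse_empty K _ (fun 𝔭 h => absurd h.2 h.1.2.2)⟩, h3⟩
  · obtain ⟨δ, -, h3, h4⟩ := prop_law K H h2 hH hG _ hp' ⟨M, hM⟩
    exact ⟨δ, h4.2 ⟨M', hM', fun 𝔭 h => h.1.2.1,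
      sparse_empty K _ (fun 𝔭 h => absurd h.2 h.1.1.2.2)⟩, h3⟩
  · obtain ⟨δ, h0, h3, h4⟩ := prop_law K H h2 hH hG _ hpu ⟨M, hM⟩
    have h5 : δ = 0 := by
      refine le_antisymm (not_lt.1 fun h6 => ?_) h0
      obtain ⟨M₁, hM₁, hg⟩ := h4.1 h6
      by_cases h7 : M₁ = M
      · have h8 : M₁ ≠ M' := by
          rintro rfl
          exact hne h7.symm
        refine not_good K H hM₁ hM' h8 _ ?_ hg
        intro 𝔭 h9
        by_cases h10 : 𝔭 ∈ NonSplit K M
        · exact Or.inl h10
        · exact Or.inr ⟨h9, h10⟩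
      · exact not_good K H hM₁ hM h7 _ Set.subset_union_left hg
    rw [← h5]
    exact h3

theorem ne_of_exclusive (K : Type) [Field K] [NumberField K] (H : Type) [Group H] [Finite H]
    (h2 : 2 ≤ Nat.card H) (hH : IsAdmissible H) {d : ℕ} {G : Subgroup (Equiv.Perm (Fin d))}
    (hG : IsC2Wreath H G) {T T' : Set (Ideal (𝓞 K))} (h : AreExclusive K d G T T') :
    ∃ M M' : IntermediateField K (AlgebraicClosure K), IsExt K H M ∧ IsExt K H M' ∧ M ≠ M' := by
  obtain ⟨hT, hT', -, ⟨δ, hδ, h3⟩, ⟨δ', hδ', h4⟩, h5⟩ := h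
  by_cases hex : ∃ M : IntermediateField K (AlgebraicClosure K), IsExt K H M
  · have hTu : IsPrimeSet K (T ∪ T') := fun 𝔭 h => h.elim (hT 𝔭) (hT' 𝔭)
    obtain ⟨e1, -, k1, l1⟩ := prop_law K H h2 hH hG _ hT hex
    obtain ⟨e2, -, k2, l2⟩ := prop_law K H h2 hH hG _ hT' hex
    obtain ⟨e3, -, k3, l3⟩ := prop_law K H h2 hH hG _ hTu hex
    have m1 : e1 = δ := tendsto_nhds_unique k1 h3
    have m2 : e2 = δ' := tendsto_nhds_unique k2 h4
    have m3 : e3 = 0 := tendsto_nhds_unique k3 h5
    rw [m1] at l1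
    rw [m2] at l2
    rw [m3] at l3
    obtain ⟨M, hM, hg⟩ := l1.1 hδ
    obtain ⟨M', hM', hg'⟩ := l2.1 hδ'
    refine ⟨M, M', hM, hM', ?_⟩
    rintro rfl
    have hcon : (0 : ℝ) < 0 := by
      rw [l3]
      refine ⟨M, hM, fun 𝔭 h6 => h6.elim (hg.1 𝔭) (hg'.1 𝔭), ?_⟩
      refine sparse_mono K _ _ ?_ (sparse_union K _ _ hg.2 hg'.2)
      rintro 𝔭 ⟨h6 | h6, h7⟩
      · exact Or.inl ⟨h6, h7⟩
      · exact Or.inr ⟨h6, h7⟩
    exact lt_irrefl _ hcon
  · exfalso
    have h6 : HasProportion K d G T 0 := by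
      unfold HasProportion
      have : (fun B : ℝ => (NUnr K d G T B : ℝ) / N K d G B) = fun _ => 0 := by
        funext B
        rw [N_zero K H hG hex B, Nat.cast_zero, div_zero]
      rw [this]
      exact tendsto_const_nhds
    have h7 : δ = 0 := tendsto_nhds_unique h3 h6
    exact absurd hδ (by rw [h7]; exact lt_irrefl _)

/-- **The ramification of `C₂ ≀ H`-extensions at disjoint sets of primes is dependent.** Solvable
groups and the symmetric groups `S_m` are admissible. Let `H` be an admissible group with at least two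
elements and `G = C₂ ≀ H ≤ S_d`.
1. Let `K` be a number field. There are disjoint sets `T`, `T'` of primes of `K` such that a positive
   proportion of the `G`-extensions of `K` is unramified at all primes in `T`, a positive proportion is
   unramified at all primes in `T'`, and the proportion of those with both properties is `0`, if and
   only if `K` has two different Galois extensions with group `H` in its algebraic closure. For two
   such extensions `M`, `M'` one can take the primes which are unramified and not totally split in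
   `M`, and those which are unramified and not totally split in `M'` but not in the first set.
2. There is a number field `K₀` such that for all number fields `K ⊇ K₀` there is such a set `T'` for
   `T = NonSplit K M`, for every Galois extension `M` of `K` with group `H`, and there are such `M`. -/
theorem result :
    (∀ (H : Type) [Group H], Group.IsSolvable H → IsAdmissible H) ∧
    (∀ m : ℕ, 5 ≤ m → IsAdmissible (Equiv.Perm (Fin m))) ∧
    ∀ (H : Type) [Group H] [Finite H], 2 ≤ Nat.card H → IsAdmissible H →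
      ∀ (d : ℕ) (G : Subgroup (Equiv.Perm (Fin d))), IsC2Wreath H G →
        (∀ (K : Type) [Field K] [NumberField K],
          ((∃ T T' : Set (Ideal (𝓞 K)), AreExclusive K d G T T') ↔
            ∃ M M' : IntermediateField K (AlgebraicClosure K),
              IsExt K H M ∧ IsExt K H M' ∧ M ≠ M') ∧
          ∀ M M' : IntermediateField K (AlgebraicClosure K), IsExt K H M → IsExt K H M' →
            M ≠ M' → AreExclusive K d G (NonSplit K M) (NonSplit K M' \ NonSplit K M)) ∧
        ∃ (K₀ : Type) (_ : Field K₀) (_ : NumberField K₀),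
          ∀ (K : Type) [Field K] [NumberField K] [Algebra K₀ K],
            (∃ M : IntermediateField K (AlgebraicClosure K), IsExt K H M) ∧
            ∀ M : IntermediateField K (AlgebraicClosure K), IsExt K H M →
              ∃ T' : Set (Ideal (𝓞 K)), AreExclusive K d G (NonSplit K M) T' := by
  classical
  refine ⟨fun H _ h => isAdmissible_of_solvable H h, isAdmissible_perm, ?_⟩
  intro H _ _ h2 hH d G hG
  refine ⟨?_, ?_⟩
  · intro K _ _
    refine ⟨⟨?_, ?_⟩, fun M M' hM hM' hne => exclusive_of_ne K H h2 hH hG hM hM' hne⟩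
    · rintro ⟨T, T', h⟩
      exact ne_of_exclusive K H h2 hH hG h
    · rintro ⟨M, M', hM, hM', hne⟩
      exact ⟨_, _, exclusive_of_ne K H h2 hH hG hM hM' hne⟩
  · have := Fintype.ofFinite H
    obtain ⟨K₀, i1, i2, hK₀⟩ := Pool.Agent.H419.MK.exists_split
      (Pool.Agent.H419.MK.FAM.t_FAM Pool.Agent.H419.MK.RGP.t_RGP
        (Pool.Agent.H419.MK.SPC.t_SPC Pool.Agent.H419.MK.HITZ.t_HITZ))
      Pool.Agent.H419.MK.SPL.t_SPL H
    refine ⟨K₀, i1, i2, ?_⟩
    intro K _ _ _
    constructor
    · obtain ⟨M, hM, -⟩ := hK₀ K ⊤ top_ne_bot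
      exact ⟨M, hM⟩
    · intro M hM
      have hfd : FiniteDimensional K M := hM.1
      have hgal : IsGalois K M := hM.2.1
      have hnf : NumberField M := Pool.Agent.TH444.ML.nf_of_fd M
      have hdeg : 2 ≤ Module.finrank K M := by
        obtain ⟨e⟩ := hM.2.2
        rw [← IsGalois.card_aut_eq_finrank K M, Nat.card_congr e.toEquiv]
        exact h2
      obtain ⟨P, hP, hP0, σ, hσ, hfix⟩ := Pool.Agent.H419.AC.NSP.t_NSP K M hdeg
      have hc0 : P.comap (algebraMap (𝓞 K) (𝓞 M)) ≠ ⊥ := Ideal.IsIntegral.comap_ne_bot (𝓞 K) hP0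
      obtain ⟨M', hM', hfix'⟩ := hK₀ K (P.comap (algebraMap (𝓞 K) (𝓞 M))) hc0
      have hne : M ≠ M' := by
        rintro rfl
        exact hσ (hfix' P hP hP0 (Ideal.map_comap_le) σ hfix)
      exact ⟨_, exclusive_of_ne K H h2 hH hG hM hM' hne⟩

end Pool.Agent.Results.MP_b39724_nt.RamificationDependence
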